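import Pool.Agent.helper86.OF.SpecM

/-!
# of:KSA, one colour of the first phase when all active vertices have to be covered
-/

open scoped BigOperators

namespace Pool.Agent.OF

noncomputable section

open Classical

/-- a fixed point free involution of a finite set -/
theorem KSA_even {V : Type} (s : Finset V) (μ : V → V) (h1 : ∀ v, μ (μ v) = v)
    (h2 : ∀ v ∈ s, μ v ∈ s) (h3 : ∀ v ∈ s, μ v ≠ v) : Even s.card := by
  have h : ∑ _x ∈ s, (1 : ZMod 2) = 0 := by
    refine Finset.sum_involution (fun x _ => μ x) ?_ ?_ ?_ ?_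
    · intro a _
      decide
    · intro a ha _
      exact h3 a ha
    · intro a ha
      exact h2 a ha
    · intro a _
      exact h1 a
  rw [Finset.sum_const, nsmul_eq_mul, mul_one, ZMod.natCast_eq_zero_iff_even] at h
  exact h

section
variable {V : Type} [Fintype V] {A Z S : Finset V} {C : SimpleGraph V} {m : V → V} {ε : ℝ}

theorem KSA_mZ (hK : KCtx A Z Z C m S ε) {v : V} (hv : v ∈ Z) : m v ∈ Z := by
  by_contra h
  have h1 := hK.mZ _ h
  rw [hK.inv] at h1
  exact h (h1 ▸ hv)

theorem KSA_parity (hK : KCtx A Z Z C m S ε) {μ : V → V} {T : Finset V} (hc : Chg C m μ T) :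
    Even (Z.filter fun x => μ x ≠ x).card := by
  refine KSA_even _ μ hc.inv ?_ ?_
  · intro v hv
    rw [Finset.mem_filter] at hv ⊢
    refine ⟨?_, ?_⟩
    · rcases hc.edg v hv.2 with h | h
      · exact (hK.cr _ _ h).2.1
      · rw [h]
        exact KSA_mZ hK hv.1
    · rw [hc.inv]
      exact hv.2.symm
  · intro v hv
    rw [Finset.mem_filter] at hv
    exact hv.2

theorem KSA_split (μ : V → V) : (Z.filter fun x => μ x = x).card +
    (Z.filter fun x => μ x ≠ x).card = Z.card :=
  Finset.card_filter_add_card_filter_not _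

theorem KSA_stuck (hK : KCtx A Z Z C m S ε)
    (hs : ((Z.filter fun x => m x = x).card : ℝ) ≤ ε / 1000 * Fintype.card V)
    (hb : 1000 ≤ ε * Fintype.card V) (u : V) : stk C m Z S ε u := by
  unfold stk
  have hsub : (Finset.univ.filter fun b => b ∉ S ∧ C.Adj u b ∧ (m b = b ∨ m b ∉ Z)) ⊆
      (Z.filter fun x => m x = x) := by
    intro b hb
    rw [Finset.mem_filter] at hb ⊢
    obtain ⟨-, -, h1, h2⟩ := hb
    have hbZ := (hK.cr _ _ h1).2.1
    refine ⟨hbZ, ?_⟩
    rcases h2 with h2 | h2
    · exact h2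
    · exact absurd (KSA_mZ hK hbZ) h2
  have h1 : ((Finset.univ.filter fun b => b ∉ S ∧ C.Adj u b ∧ (m b = b ∨ m b ∉ Z)).card : ℝ) ≤
      ((Z.filter fun x => m x = x).card : ℝ) := by
    exact_mod_cast Finset.card_le_card hsub
  nlinarith

end

/-- the loop -/
theorem KSA_loop (h2 : KB2_stmt) {V : Type} [Fintype V] {A Z S : Finset V} {C : SimpleGraph V}
    {m : V → V} {ε : ℝ} (hK : KCtx A Z Z C m S ε) (he : Even (Z.filter fun x => m x = x).card)
    (hs : ((Z.filter fun x => m x = x).card : ℝ) ≤ ε / 1000 * Fintype.card V)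
    (hb : 1000 ≤ ε * Fintype.card V) :
    ∀ (n : ℕ) (μ : V → V) (T : Finset V), (Z.filter fun x => μ x = x).card = n →
    Chg C m μ T → (∀ x ∈ Z, m x ≠ x → μ x ≠ x) →
    T.card + 3 * (Z.filter fun x => μ x = x).card ≤ 3 * (Z.filter fun x => m x = x).card →
    (∀ v ∈ T, (v ∈ Z ∧ m v = v) ∨ v ∉ S) →
    ∃ (μ' : V → V) (T' : Finset V), Chg C m μ' T' ∧ (∀ x ∈ Z, μ' x ≠ x) ∧
      T'.card ≤ 3 * (Z.filter fun x => m x = x).card ∧ ∀ v ∈ T', (v ∈ Z ∧ m v = v) ∨ v ∉ S := by
  intro n
  induction n using Nat.strong_induction_on with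
  | _ n ih =>
    intro μ T hn hc hcov hT hv
    by_cases h0 : n = 0
    · refine ⟨μ, T, hc, ?_, by omega, hv⟩
      intro x hx hx'
      have : x ∈ (Z.filter fun x => μ x = x) := Finset.mem_filter.mpr ⟨hx, hx'⟩
      rw [h0, Finset.card_eq_zero] at hn
      rw [hn] at this
      exact absurd this (Finset.notMem_empty x)
    · have p1 := KSA_parity hK hc
      have hcm : Chg C m m ∅ := ⟨hK.inv, fun _ _ => rfl, fun v hv => absurd hv (Finset.notMem_empty v),
        fun _ _ => Or.inr rfl⟩
      have p2 := KSA_parity hK hcm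
      have s1 := KSA_split (Z := Z) μ
      have s2 := KSA_split (Z := Z) m
      have hev : Even n := by
        rw [hn] at s1
        obtain ⟨a, ha⟩ := p1
        obtain ⟨b, hb⟩ := p2
        obtain ⟨c, hc'⟩ := he
        exact ⟨c + b - a, by omega⟩
      have h1 : 1 < (Z.filter fun x => μ x = x).card := by
        obtain ⟨a, ha⟩ := hev
        omega
      obtain ⟨u, hu, w, hw, huw⟩ := Finset.one_lt_card.mp h1
      rw [Finset.mem_filter] at hu hw
      have hTr : ((T.card : ℝ) + 10) ≤ ε / 4 * Fintype.card V := by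
        have h3 : (T.card : ℝ) ≤ 3 * ((Z.filter fun x => m x = x).card : ℝ) := by
          exact_mod_cast (by omega : T.card ≤ 3 * (Z.filter fun x => m x = x).card)
        nlinarith
      obtain ⟨μ', T', c1, -, c3, c4, c5, c6, c7, -, -⟩ := h2 V A Z Z S T C m μ ε hK hc hTr u hu.1 w
        hw.1 huw hu.2 hw.2 (KSA_stuck hK hs hb u) (KSA_stuck hK hs hb w)
      have hsub : (Z.filter fun x => μ' x = x) ⊆ ((Z.filter fun x => μ x = x).erase u).erase w := by
        intro x hx
        rw [Finset.mem_filter] at hx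
        rw [Finset.mem_erase, Finset.mem_erase, Finset.mem_filter]
        refine ⟨?_, ?_, hx.1, ?_⟩
        · rintro rfl
          exact c6 hx.2
        · rintro rfl
          exact c5 hx.2
        · by_contra h
          exact c4 x hx.1 h hx.2
      have hcard := Finset.card_le_card hsub
      rw [Finset.card_erase_of_mem, Finset.card_erase_of_mem] at hcard
      · refine ih (Z.filter fun x => μ' x = x).card (by omega) μ' T' rfl c1 ?_ (by omega) ?_
        · intro x hx hx'
          exact c4 x hx (hcov x hx hx')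
        · intro v hv'
          have hmu : ∀ v ∈ Z, μ v = v → m v = v := by
            intro v hvZ h
            by_contra h'
            exact hcov v hvZ h' h
          rcases c7 v hv' with h | h | h | h
          · exact hv v h
          · rw [h]
            exact Or.inl ⟨hu.1, hmu u hu.1 hu.2⟩
          · rw [h]
            exact Or.inl ⟨hw.1, hmu w hw.1 hw.2⟩
          · exact Or.inr h
      · exact Finset.mem_filter.mpr hu
      · rw [Finset.mem_erase]
        exact ⟨huw.symm, Finset.mem_filter.mpr hw⟩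

theorem KSA (h2 : KB2_stmt) : KSA_stmt := by
  intro V _ A Z S C m ε hK he hs hb
  refine KSA_loop h2 hK he hs hb _ m ∅ rfl ?_ (fun _ _ h => h) ?_ ?_
  · exact ⟨hK.inv, fun _ _ => rfl, fun v hv => absurd hv (Finset.notMem_empty v),
      fun _ _ => Or.inr rfl⟩
  · rw [Finset.card_empty]
    omega
  · intro v hv
    exact absurd hv (Finset.notMem_empty v)

end

end Pool.Agent.OF
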